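import Pool.Agent.H28.TanBlock

set_option autoImplicit false

namespace Pool.Agent.Results.MP_e1005d_co.ModNotSS

open Pool.Agent.H28.TanBlock Module

instance : Fact (Nat.Prime 7) := ⟨by norm_num⟩

abbrev L := ZMod 7

def v (e : Fin 20) (i : Fin 4) : L := ((48748746578371885634392318442491578888719014556082139441562137661542912 >>> (3 * (4 * e.val + i.val))) % 8 : ℕ)

def ph (a b : Fin 20) : ℕ := (1077454149711393961040463624441373244329584109563035911532834165129061619350999936913630109002818636372112973167932085274239376621644136410208554352452258869961616915067033038585165895108536310219510366654699516517798923173426231322591149177662312639272784318048022368068987423530765194467449507718842811197034047281091023285910719928906861914837906507293213985923504246982814883776320737887776735533566250025654322935410525655229076613488119691998589299745199814843083566591342447331639718965052928276134128668835869520781474318918857704482275585705998106378499356841104826255356113040161339039370222450024911621367095999888822595364060936026011894132709908250392501874173736622588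6234427227318903178837944177672612205201074359884050339303465549676289210851572785141576082813223249758853142391687102617073582331702067882935342414163625629962587341107540076928076650345993010824057510925236692138896844985368140548194299091006734283641413886025879517912735263671541495029162833762377673183848960523979876776726107843071816954611264352524959833085658277562430729332466177891399335777237350621806745132541141531940483852879615231836392272118179799294746274590017169797650297889186033558437194498737179149920908757828641327338371992061072940562074504893179522699169328376564707869771112100654908287056204941703917035753419054916966781070598383111647236517839779476852177563034314267421031527845013960841947335238699712118619711222180965940935782467 >>> (12 * (20 * a.val + b.val))) % 4096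

def ps (a b : Fin 20) : ℕ := (23256943132276558327885703998166536500503868927394770451087720013641310711917239363486508075320200100270337759094683696373698141800755475066819808687571446264608185708167398165462312622685037564807647432619206514458910673650706032820589138550767623788051435947290037600657827007218246616067520771323703875126150181607914784330324354759825352458326816296826808791504800990314486909324762417170233007836710571349446606361043509224781794648652325827514626215857849017416439648347159733807551040457496754036822218183672043668791973152520894013948521659455098788207922748230505976620259286454727605933066447173212573573610745455676609952424704014026467009547789769288765350292708121312867272586052964071184176421023514138831729613404426474904959665844807406320123698229817101272715879436531122446099034327861173058156102023306611640238131137216626227138482109883426485468914564452719100808469208278696040211133329772256649901287472089723922724566877754683816363680831364208296007691718411420737835064993394332761509170696568557591024346266143928230084026574624418439551786378017279065626443273416055610455769267106754130141872269102673801102628890261392391761323863599930035539386125881206019711924399264093360677744378982170766966270308524787323137329678025942952232433302990614175045184032300067812287569406504262703794706795919417007859885799462010846617074516921238208795217031495248033792080390084805741000132484315696991438581301415839297537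 >>> (12 * (20 * a.val + b.val))) % 4096

def cc (a b : Fin 20) : Fin 20 := Fin.ofNat 20 ((1276293532948524710994883212735412690724567215836444787400100807284535623491413532066516260731432596822765796679037821057036178795924537019811403635763088058073724785287700480918575944711213664521102122585462406705359341738410817265536238667986308286142645302016446564242974285219770030819391716092893964725812850266899224475613240764246824631860724657178601479363938685100954014097828874827789584113182320194472050020479940658195786517058661118691218810912127963506529819076227756068751303795045862073495161039651427267104739399955773782703097287140387324884430039927871547217604521706469764295233760 >>> (5 * (20 * a.val + b.val))) % 32)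

def dd (a b : Fin 20) : Fin 20 := Fin.ofNat 20 ((4629333202446750023995725257871392917570035216861713639735634807064191967034499003299808601467544586976336878394141257962099606541535797399300278949586536329967560552430182312456831299649974325483851135395083254440464088121781303226159056648956388811827916289452211148648101094460415904952521213605794801423162898013181324942891974947734049028685505349287553435799072538579402445491418354967675567161082243054130552141240991013944202202241676921968668787093557189081735827174472109034489940392943546737054098071140839336572041174600534356106159059935862854528652062314528973464145287470055737467765921 >>> (5 * (20 * a.val + b.val))) % 32)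

def ev (c : ℕ) (x : Fin 4 → L) : L :=
  ((c % 7 : ℕ) : L) * x 0 + ((c / 7 % 7 : ℕ) : L) * x 1 + ((c / 49 % 7 : ℕ) : L) * x 2 +
    ((c / 343 % 7 : ℕ) : L) * x 3

def fm (c : ℕ) : (Fin 4 → L) →ₗ[L] L :=
  ((c % 7 : ℕ) : L) • LinearMap.proj 0 + ((c / 7 % 7 : ℕ) : L) • LinearMap.proj 1 +
    ((c / 49 % 7 : ℕ) : L) • LinearMap.proj 2 + ((c / 343 % 7 : ℕ) : L) • LinearMap.proj 3

lemma fm_apply (c : ℕ) (x : Fin 4 → L) : fm c x = ev c x := rfl

lemma c1 : ∀ a e : Fin 20, ev (ph a a) (v e) = 0 ↔ e = a := by decide +kernel

lemma c2 : ∀ a b : Fin 20, ev (ph a b) (v a) = 0 ∧ ev (ph a b) (v b) = 0 ∧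
    ∀ e, ev (ph a b) (v e) ≠ 0 ∨ ∃ s t : L, s * v a 0 + t * v b 0 = v e 0 ∧
      s * v a 1 + t * v b 1 = v e 1 ∧ s * v a 2 + t * v b 2 = v e 2 ∧
      s * v a 3 + t * v b 3 = v e 3 := by decide +kernel

lemma c3 : ∀ a b : Fin 20, a = b ∨ (cc a b ≠ dd a b ∧ (∃ e, ev (ps a b) (v e) ≠ 0) ∧
    ev (ps a b) (v a) = 0 ∧ ev (ps a b) (v b) = 0 ∧ ev (ps a b) (v (cc a b)) = 0 ∧
    ev (ps a b) (v (dd a b)) = 0 ∧
    ∀ e, ev (ph a b) (v e) ≠ 0 ∨ ev (ph (cc a b) (dd a b)) (v e) ≠ 0) := by decide +kernel

lemma c4 : ∀ e : Fin 20, v e 3 = 0 ∨ v e 3 = 1 := by decide +kernel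

lemma c5 : ∀ e e' : Fin 20, v e 3 ≠ 1 ∨ v e' 3 ≠ 1 ∨ e = e' ∨
    ∃ x, v x 3 = 0 ∧ ∃ c : L, c ≠ 0 ∧ v e - v e' = c • v x := by decide +kernel

lemma c6 : ∀ i : Fin 7, v (Fin.castLE (by norm_num) i) 3 = 1 := by decide +kernel

attribute [irreducible] ph ps cc dd

lemma simple : Simple v := by
  refine ⟨by decide +kernel, fun e f h => LinearIndependent.pair_iff.2 fun s t hst => ?_⟩
  have h1 := congrArg (fm (ph e e)) hst
  have h2 := congrArg (fm (ph f f)) hst
  rw [map_add, map_smul, map_smul, map_zero, fm_apply, fm_apply] at h1 h2
  rw [(c1 e e).2 rfl, smul_zero, zero_add] at h1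
  rw [(c1 f f).2 rfl, smul_zero, add_zero] at h2
  exact ⟨(mul_eq_zero.1 h2).resolve_right fun h' => h ((c1 f e).1 h'),
    (mul_eq_zero.1 h1).resolve_right fun h' => h ((c1 e f).1 h').symm⟩

lemma rk2 (a b : Fin 20) (h : a ≠ b) : finrank L (Submodule.span L {v a, v b}) = 2 := by
  have h1 := finrank_span_eq_card (simple.2 a b h)
  rw [Matrix.range_cons_cons_empty, Fintype.card_fin] at h1
  exact h1

lemma sub2 (X : Set (Fin 20)) (a b : Fin 20) (ha : a ∈ X) (hb : b ∈ X) :
    Submodule.span L {v a, v b} ≤ Submodule.span L (v '' X) := by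
  apply Submodule.span_mono
  rintro _ (rfl | rfl)
  · exact ⟨a, ha, rfl⟩
  · exact ⟨b, hb, rfl⟩

lemma ker2 (c : ℕ) (a b : Fin 20) (ha : ev c (v a) = 0) (hb : ev c (v b) = 0) :
    Submodule.span L {v a, v b} ≤ LinearMap.ker (fm c) := by
  rw [Submodule.span_le]
  rintro _ (rfl | rfl)
  · exact ha
  · exact hb

lemma mem2 (a b e : Fin 20) (h : ev (ph a b) (v e) = 0) : v e ∈ Submodule.span L {v a, v b} := by
  obtain ⟨s, t, h0, h1, h2, h3⟩ := ((c2 a b).2.2 e).resolve_left (not_not.2 h)
  refine Submodule.mem_span_pair.2 ⟨s, t, funext fun i => ?_⟩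
  fin_cases i
  · exact h0
  · exact h1
  · exact h2
  · exact h3

lemma ker3 (f : (Fin 4 → L) →ₗ[L] L) (hf : f ≠ 0) : finrank L (LinearMap.ker f) ≤ 3 := by
  have hk : LinearMap.ker f < ⊤ := lt_top_iff_ne_top.2 fun h => hf (LinearMap.ker_eq_top.1 h)
  have h3 := Submodule.finrank_lt_finrank_of_lt hk
  rw [finrank_top, Module.finrank_fin_fun] at h3
  omega

def H : Set (Fin 20) := {e | v e 3 = 0}

lemma hker (X : Set (Fin 20)) (hX : X ⊆ H) (y : Fin 4 → L) (hy : y ∈ Submodule.span L (v '' X)) :
    y 3 = 0 := by
  have : Submodule.span L (v '' X) ≤ LinearMap.ker (LinearMap.proj 3 : (Fin 4 → L) →ₗ[L] L) := by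
    rw [Submodule.span_le]
    rintro _ ⟨e, he, rfl⟩
    exact hX he
  exact this hy

lemma step (X : Set (Fin 20)) (hX : IsFlat v X) (e0 : Fin 20) (h0 : e0 ∈ X) (h1 : v e0 3 = 1) :
    rk v X = rk v (H ∩ X) + 1 := by
  have hn : v e0 ∉ Submodule.span L (v '' (H ∩ X)) := fun h => by
    have := hker _ Set.inter_subset_left _ h
    rw [h1] at this
    exact one_ne_zero this
  have e : Submodule.span L (v '' X) =
      Submodule.span L (v '' (H ∩ X)) ⊔ Submodule.span L {v e0} := by
    apply le_antisymm
    · rw [Submodule.span_le]
      rintro _ ⟨e, he, rfl⟩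
      rcases c4 e with h | h
      · exact Submodule.mem_sup_left (Submodule.subset_span ⟨e, ⟨h, he⟩, rfl⟩)
      · rcases c5 e e0 with h' | h' | h' | ⟨x, hx, c, hc, h'⟩
        · exact absurd h h'
        · exact absurd h1 h'
        · rw [h']
          exact Submodule.mem_sup_right (Submodule.mem_span_singleton_self _)
        · have hxX : x ∈ X := by
            apply hX
            rw [← Submodule.smul_mem_iff _ hc, ← h']
            exact Submodule.sub_mem _ (Submodule.subset_span ⟨e, he, rfl⟩)
              (Submodule.subset_span ⟨e0, h0, rfl⟩)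
          rw [sub_eq_iff_eq_add.1 h']
          exact Submodule.add_mem _ (Submodule.mem_sup_left (Submodule.smul_mem _ _
            (Submodule.subset_span ⟨x, ⟨hx, hxX⟩, rfl⟩)))
            (Submodule.mem_sup_right (Submodule.mem_span_singleton_self _))
    · exact sup_le (Submodule.span_mono (Set.image_mono Set.inter_subset_right))
        ((Submodule.span_singleton_le_iff_mem _ _).2 (Submodule.subset_span ⟨e0, h0, rfl⟩))
  have h2 := Submodule.finrank_sup_add_finrank_inf_eq (Submodule.span L (v '' (H ∩ X)))
    (Submodule.span L {v e0})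
  rw [(Submodule.disjoint_span_singleton_of_notMem hn).eq_bot, finrank_bot,
    finrank_span_singleton (simple.1 e0), ← e] at h2
  exact h2

lemma rkH : rk v H + 1 = rk v Set.univ := by
  have := step Set.univ (fun _ _ => trivial) 0 trivial (by decide +kernel)
  rw [Set.inter_univ] at this
  exact this.symm

lemma modH : Modular v H := by
  refine ⟨fun e he => hker H subset_rfl _ he, fun X hX => ?_⟩
  by_cases h : X ⊆ H
  · rw [Set.union_eq_left.2 h, Set.inter_eq_right.2 h]
  · obtain ⟨e0, h0, h1⟩ := Set.not_subset.1 h
    have h2 := step X hX e0 h0 ((c4 e0).resolve_left h1)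
    have h3 : rk v (H ∪ X) ≤ rk v Set.univ :=
      Submodule.finrank_mono (Submodule.span_mono (Set.image_mono (Set.subset_univ _)))
    have h4 : rk v H < rk v (H ∪ X) := by
      apply Submodule.finrank_lt_finrank_of_lt
      refine lt_of_le_of_ne (Submodule.span_mono (Set.image_mono Set.subset_union_left)) ?_
      intro h'
      exact h1 (hker H subset_rfl _ (h' ▸ Submodule.subset_span ⟨e0, Or.inr h0, rfl⟩))
    have := rkH
    omega

lemma fe (c : ℕ) (x : Fin 4 → L) : fm c x = 0 ↔ ev c x = 0 := Iff.rfl

lemma ke (c : ℕ) (x : Fin 4 → L) : x ∈ LinearMap.ker (fm c) ↔ ev c x = 0 := Iff.rfl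

lemma ms (k : ℕ) (e : Fin 20) : e ∈ {e | ev k (v e) = 0} ↔ ev k (v e) = 0 := Iff.rfl

lemma crit (k : ℕ) (C D : Set (Fin 20)) (h1 : ∀ e ∈ C, ev k (v e) = 0)
    (h2 : ∀ e, e ∉ C → e ∉ D → ev k (v e) ≠ 0) : CritLe v C D 1 :=
  ⟨fun _ => fm k, fun _ e he => h1 e he, fun e he he' => ⟨0, h2 e he he'⟩⟩

lemma flatk (k : ℕ) : IsFlat v {e | ev k (v e) = 0} := by
  intro e he
  have : Submodule.span L (v '' {e | ev k (v e) = 0}) ≤ LinearMap.ker (fm k) := by
    rw [Submodule.span_le]
    rintro _ ⟨x, hx, rfl⟩
    exact LinearMap.mem_ker.2 ((fm_apply _ _).trans hx)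
  exact (fm_apply _ _).symm.trans (LinearMap.mem_ker.1 (this he))

/-- A tangential 1-block over GF(7) with a modular copoint that is not supersolvable. -/
theorem result : ∃ v : Fin 20 → Fin 4 → ZMod 7, Simple v ∧ ¬ CritLe v ∅ ∅ 1 ∧
    (∀ e, CritLe v ∅ {e} 1) ∧ (∀ X, IsFlat v X → X.Nonempty → CritLe v X ∅ 1) ∧
    HasModularHyperplane v ∧ ¬ Supersolvable v := by
  refine ⟨v, simple, ?_, fun a => ?_, ?_, ⟨H, modH, rkH⟩, ?_⟩
  · rintro ⟨φ, -, h⟩
    have h' : ∀ e, φ 0 (v e) ≠ 0 := fun e => by
      obtain ⟨i, hi⟩ := h e (Set.notMem_empty _) (Set.notMem_empty _)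
      rwa [Subsingleton.elim i 0] at hi
    obtain ⟨i, j, hij, e⟩ := Fintype.exists_ne_map_eq_of_card_lt
      (fun i : Fin 7 => (⟨φ 0 (v (Fin.castLE (by norm_num) i)), h' _⟩ : {x : L // x ≠ 0}))
      (by decide +kernel)
    have e' := congrArg Subtype.val e
    rcases c5 (Fin.castLE (by norm_num) i) (Fin.castLE (by norm_num) j) with
      h1 | h1 | h1 | ⟨x, -, c, hc, h1⟩
    · exact h1 (c6 i)
    · exact h1 (c6 j)
    · exact hij (Fin.castLE_injective _ h1)
    · have h2 := congrArg (φ 0) h1
      rw [map_sub, map_smul, sub_eq_zero.2 e'] at h2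
      exact h' x ((mul_eq_zero.1 h2.symm).resolve_left hc)
  · exact crit (ph a a) _ _ (fun _ h => absurd h (Set.notMem_empty _))
      fun e _ he h => he ((c1 a e).1 h)
  · rintro X hX ⟨a, ha⟩
    by_cases h1 : ∀ e ∈ X, e = a
    · exact crit (ph a a) _ _ (fun e he => (c1 a e).2 (h1 e he))
        fun e he _ h => he (by rw [(c1 a e).1 h]; exact ha)
    push Not at h1
    obtain ⟨b, hb, hab⟩ := h1
    by_cases h2 : ∀ e ∈ X, v e ∈ Submodule.span L {v a, v b}
    · exact crit (ph a b) _ _
        (fun e he => (ke _ _).1 (ker2 _ a b (c2 a b).1 (c2 a b).2.1 (h2 e he)))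
        fun e he _ h => he (hX e (sub2 X a b ha hb (mem2 a b e h)))
    push Not at h2
    obtain ⟨c, hc, hc'⟩ := h2
    by_cases ht : Submodule.span L (v '' X) = ⊤
    · exact ⟨fun _ => 0, fun _ _ _ => rfl,
        fun e he _ => absurd (hX e (ht ▸ Submodule.mem_top)) he⟩
    obtain ⟨f, hf0, hf⟩ := Submodule.exists_le_ker_of_lt_top _ (lt_top_iff_ne_top.2 ht)
    have h3 := Submodule.finrank_lt_finrank_of_lt (lt_of_le_of_ne (sub2 X a b ha hb)
      fun h => hc' (h ▸ Submodule.subset_span ⟨c, hc, rfl⟩))
    rw [rk2 a b hab.symm] at h3
    have h4 := ker3 f hf0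
    have h5 : Submodule.span L (v '' X) = LinearMap.ker f :=
      Submodule.eq_of_le_of_finrank_le hf (by omega)
    exact ⟨fun _ => f, fun _ e he => hf (Submodule.subset_span ⟨e, he, rfl⟩),
      fun e he _ => ⟨0, fun h => he (hX e (h5 ▸ h))⟩⟩
  · rintro ⟨W, hW, -⟩
    have hu : 2 ≤ rk v Set.univ :=
      (rk2 0 1 (by decide)).symm.le.trans (Submodule.finrank_mono (sub2 _ 0 1 trivial trivial))
    obtain ⟨⟨-, hm⟩, hr⟩ := hW 2 hu
    obtain ⟨a, ha, b, hb, hab⟩ : ∃ a ∈ W 2, ∃ b ∈ W 2, a ≠ b := by
      by_contra hcon
      push Not at hcon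
      obtain ⟨a, ha⟩ : ∃ a, ∀ e ∈ W 2, e = a := by
        by_cases hne : (W 2).Nonempty
        · obtain ⟨a, ha⟩ := hne
          exact ⟨a, fun e he => hcon e he a ha⟩
        · exact ⟨0, fun e he => absurd ⟨e, he⟩ hne⟩
      have h1 : Submodule.span L (v '' W 2) ≤ Submodule.span L {v a} := by
        apply Submodule.span_mono
        rintro _ ⟨e, he, rfl⟩
        rw [ha e he]
        rfl
      have h2 := Submodule.finrank_mono h1
      rw [finrank_span_singleton (simple.1 a)] at h2
      have h3 : rk v (W 2) ≤ 1 := h2
      omega
    have h5 : Submodule.span L {v a, v b} = Submodule.span L (v '' W 2) :=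
      Submodule.eq_of_le_of_finrank_le (sub2 _ a b ha hb) (by rw [rk2 a b hab]; exact hr.le)
    obtain ⟨hcd, ⟨e1, he1⟩, pa, pb, pc, pd, hdis⟩ := (c3 a b).resolve_left hab
    generalize cc a b = c at *
    generalize dd a b = d at *
    have hX := flatk (ph c d)
    have h1 := hm _ hX
    have h2 : W 2 ∩ {e | ev (ph c d) (v e) = 0} = ∅ := by
      apply Set.eq_empty_of_forall_notMem
      rintro e ⟨he, he'⟩
      rcases hdis e with h | h
      · exact h ((ke _ _).1 (ker2 _ a b (c2 a b).1 (c2 a b).2.1
          (h5.ge (Submodule.subset_span ⟨e, he, rfl⟩))))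
      · exact h ((ms _ _).1 he')
    have h3 : 2 ≤ rk v {e | ev (ph c d) (v e) = 0} :=
      (rk2 c d hcd).symm.le.trans (Submodule.finrank_mono 
        (sub2 _ c d ((ms _ _).2 (c2 c d).1) ((ms _ _).2 (c2 c d).2.1)))
    have h4 : rk v (W 2 ∪ {e | ev (ph c d) (v e) = 0}) ≤ 3 := by
      refine le_trans (Submodule.finrank_mono ?_) (ker3 (fm (ps a b)) fun h => he1 ?_)
      · rw [Submodule.span_le]
        rintro _ ⟨e, he | he, rfl⟩
        · exact ker2 _ a b pa pb (h5.ge (Submodule.subset_span ⟨e, he, rfl⟩))
        · exact ker2 _ c d pc pd (mem2 c d e ((ms _ _).1 he))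
      · rw [← fm_apply, h, LinearMap.zero_apply]
    have h6 : rk v ∅ = 0 := by
      unfold rk
      rw [Set.image_empty, Submodule.span_empty, finrank_bot]
    rw [h2, h6] at h1
    omega

end Pool.Agent.Results.MP_e1005d_co.ModNotSS
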